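import Pool.Agent.K9h22.IC.Main

set_option autoImplicit false

/-! # The local motivic monodromy conjecture for iterated cones, Thom-Sebastiani sums and everything
# which is formally equivalent to them

`M` is a commutative ring with a unit `L`, for example `M = K₀(Var_ℂ)[1/L]`, the Grothendieck ring of
complex varieties localized at the class `L` of the affine line. `MotIC L c A Z`
(in `Pool.Agent.K9h22.IC.Defs`) defines two classes of germs at the origin of ideals (`c = false`) and
of hypersurfaces (`c = true`), in any number of variables, together with their local motivic zeta
functions `Z = ∑_e μ(ord = e) T ^ e`, normalized such that the arcs with the origin `0` have the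
volume `1` (so `Z` is `L ^ n` times the series of the problem, in `n` variables). They contain the
classes `MotTS` (in `Pool.Agent.K9h41.TS.Defs`) and are closed under their operations (sums and
products of ideals in disjoint sets of variables, `∑ y_j f_j(x)`, `∑ y_j f_j(x) + g(z)`, fewer
variables, reindexing) and under three new ones:

* formal coordinates and units: if `f(φ) = u g` for formal coordinates `φ` at the origin and
  a unit `u`, both with coefficients in the formal power series, and the germ of `g` is in the
  class, then so is the germ of `f`, with the same zeta function;
* further variables;
* cones: let `G = h(x) ∏_t (∑_j y_{t,j} f_{t,j}(x)) ^ a_t` with forms `h` and `f_{t,j}` in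
  `x = (x_0, ..., x_n)`, of degree `d > 0` in `x`, such that `n + 1` of the generators of the ideal
  `h ∏_t (f_{t,j})_j ^ a_t` are algebraically independent. If the germs of `G` at the points `(0, q)`,
  `[q] ∈ ℙⁿ`, are in the class (for one point of each of finitely many constructible subsets of
  `ℙⁿ` with the classes `w_i`, on which the zeta function of the germ is `Z_i`), then the germ of `G` at the
  origin is in the class, with the zeta function
  `(L - 1) L ^ (-(n + 1)) T ^ d / (1 - L ^ (-(n + 1)) T ^ d) ∑ w_i Z_i`.

The germ of the cone `G` at `(0, q)`, `q ≠ 0`, is in one variable less, up to a unit, so that the rule
reduces the dimension. For example, for `n = 2` the germs at `(0, q)` are those of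
`h(1, u, v) ∏_t (∑_j y_{t,j} f_{t,j}(1, u, v)) ^ a_t` and for one factor they are in `MotTS`. For `n = 3`
the class contains the `∑ y_j f_j(x_0, ..., x_3)` such that the base locus of the `f_j` has in suitable
formal coordinates, at each point of `ℙ³`, the ideal of a cone over a plane scheme, or
of a sum or product of ideals in the classes in disjoint sets of variables, and so on; all these germs
may be put into Thom-Sebastiani sums, and these are again allowed as germs at `(0, q)` of further
cones. Such singularities are in general neither isolated nor non-degenerate
for their Newton polyhedra.

The theorem: if the germ of the hypersurface `F = 0` is in the class, with the zeta function `Z`, then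
`Z` lies in the ring `M[T][(1 - L⁻ⁿ Tᵃ)⁻¹]`, where the pairs `a, n ≥ 1` are such that `-n/a` is a root of
the local Bernstein-Sato polynomial of `F` at the origin. By the theorem of Malgrange and Kashiwara
the numbers `exp(-2 π i n/a)` are then monodromy eigenvalues of `F` at points of `{F = 0}` arbitrarily
close to the origin.

The proof (`Pool.Agent.K9h22.IC`):

* `redu_cone`: the formula for the reduced series `R(F) = ∑_e (L V_{e+1} - V_e) T ^ e` (`V_e` is the
  volume of `ord F ≥ e`) of a cone in terms of the ones of the germs at `(0, q)`; it needs the whole
  sum `∑ w_i = [ℙⁿ]`, the poles of the `R(Z_i)` and the pole `-(n + 1)/d` remain, and no other pole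
  appears;
* `rf_of_localB`, `localB_of_rf`: the roots which are forced in all reduced functional equations
  `(s + 1) B(x, s) F ^ s = P F ^ (s + 1)`, where `B` is a polynomial in `x` and `s`, are the roots of
  the reduced local functional equations with formal power series as coefficients. The proof removes
  the factor `s - β` from a Bernstein-Sato polynomial by means of a `B` with `B(0, β) ≠ 0`, one after
  the other. So the forced roots may be transferred between germs which are formally equivalent
  (`rf_transfer`, `local_germ`);
* `rf_cone_point`: a cone is homogeneous, so its local functional equations at the origin are global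
  ones (starting files), and forced roots at `(0, q)` are forced roots at the origin;
* `rf_top`: `-(n + 1)/d` is a reduced root. The global functional equation of
  `G = h ∏ (∑ y f) ^ a` is equivalent to the one of the ideal `h ∏ (f_t)_j ^ a_t` up to
  the factor `∏_t ∏_i (a_t s + i)` (starting files), and `-(n + 1)/d` is a root of the Bernstein-Sato
  polynomial of this ideal, as `n + 1` of the generators, forms of degree `d`, are algebraically
  independent (starting files);
* `rf_more`: forced roots and further variables;
* `closure`: the induction over the classes. -/

namespace Pool.Agent.Results.MP_9321be_ag.IteratedConesLocal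

open Pool.Agent.K9h22.IC Pool.Agent.H628R4.TP Pool.Agent.W574.MO

/-- **The local motivic monodromy conjecture, in the strong form, for a class of hypersurfaces which
is closed under cones, formal equivalence and the Thom-Sebastiani sums `∑ y_j f_j(x) + g(z)`.** Let
`F` be a polynomial in finitely many variables `σ` whose germ at the origin, with the local motivic
zeta function `Z`, is in the class `MotIC`, and let `b` satisfy a functional equation
`b(s) F ^ s = P(s) F ^ (s + 1)` with a differential operator `P(s)` whose coefficients are formal power
series at the origin (for instance the local Bernstein-Sato polynomial of `F`). Then `Z` lies in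
the ring `M[T][(1 - L⁻ⁿ Tᵃ)⁻¹]`, where the pairs `a, n ≥ 1` are such that `b(-n/a) = 0`
(`RootPair b a n`). -/
theorem result {M : Type} [CommRing M] (L : Mˣ) {σ : Type} (F : MvPolynomial σ ℂ)
    (Z : PowerSeries M) (hF : MotIC L false ⟨σ, Fin 1, fun _ => F⟩ Z) (b : Polynomial ℂ)
    (hb : IsLocalBFunction F b) : Z ∈ DenRing L (RootPair b) :=
  ic_main F Z hF b hb

end Pool.Agent.Results.MP_9321be_ag.IteratedConesLocal
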